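import Mathlib
import Pool.Agent.Lib.MP_8ca597_hd.Final

/-!
Bernoulli bond percolation on `ℤ^d`, `d` large: the supercritical critical exponents exist and have
their mean-field values `γ' = 1`, `ν₂' = 1/2`, `ν' = 1/2`. The definitions are in the file
`Pool/Agent/Lib/MP_8ca597_hd/Model.lean`.
-/

set_option autoImplicit false

namespace Pool.Agent.Results.MP_8ca597_pr.SupercriticalExponents

open Filter Topology
open Pool.Agent.HDM (pc chiF xi2sq tauF axis)

/-- For all sufficiently large `d`, as `p` decreases to `p_c`: the truncated susceptibility is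
comparable to `(p - p_c)⁻¹`, the square of the second-moment correlation length is comparable to
`(p - p_c)⁻¹`, and the correlation length (the limit which defines it exists) is comparable to
`(p - p_c)^(-1/2)`. -/
theorem result : ∃ d₀ : ℕ, ∀ d : ℕ, d₀ ≤ d → ∃ c C ε : ℝ, 0 < c ∧ 0 < C ∧ 0 < ε ∧
    0 < pc d ∧ pc d + ε < 1 ∧ ∀ p : ℝ, pc d < p → p < pc d + ε →
      (ENNReal.ofReal (c / (p - pc d)) ≤ chiF d p ∧
        chiF d p ≤ ENNReal.ofReal (C / (p - pc d))) ∧
      (ENNReal.ofReal (c / (p - pc d)) ≤ xi2sq d p ∧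
        xi2sq d p ≤ ENNReal.ofReal (C / (p - pc d))) ∧
      ∃ ξ : ℝ, Tendsto (fun n : ℕ => -Real.log (tauF d p (axis d n)).toReal / n) atTop
          (𝓝 (1 / ξ)) ∧
        c / √(p - pc d) ≤ ξ ∧ ξ ≤ C / √(p - pc d) :=
  Pool.Agent.HD.final

end Pool.Agent.Results.MP_8ca597_pr.SupercriticalExponents
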